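import Mathlib
import Pool.Agent.H.MP_9f71e8_nt.A

set_option autoImplicit false

namespace Pool.Agent.Results.MP_9f71e8_nt.All

theorem result (n : ℕ) (hn : 34 ≤ n) : ∃ L : ℕ, 1 ≤ L ∧ ∃ α : ℕ → ℕ, (∀ j, 1 ≤ α j) ∧
    n = ∑ j ∈ Finset.range L, Nat.nth Nat.Prime j ^ α j :=
  Pool.Agent.H.MP_9f71e8_nt.main n hn

end Pool.Agent.Results.MP_9f71e8_nt.All
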